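import Pool.Agent.Helper14.W5.StD

/-!
# Project W5, module Itr: iteration of the leading forms
-/

set_option autoImplicit false

namespace Pool.Agent.Helper24.W5

open Pool.Agent.Helper14.W5
open Pool.Agent.Helper14.CV (Homog EqC act Tl)
open Pool.Agent.Helper28.WK (SymP Tw evw Ok)

section lists

variable {q q' : ℕ}

private theorem opL_nil : (opL [] : Module.End (ZMod 5) (Fn5 q q')) = 0 := rfl

private theorem opL_cons (t : Tm) (L : List Tm) : (opL (t :: L) : Module.End (ZMod 5) (Fn5 q q')) =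
    ((t.1 : ℤ) : ZMod 5) • op5 t.2.1 t.2.2.1 t.2.2.2.1 t.2.2.2.2 + opL L := by
  unfold opL
  rw [List.map_cons, List.sum_cons]

private theorem opL_append (L L' : List Tm) :
    (opL (L ++ L') : Module.End (ZMod 5) (Fn5 q q')) = opL L + opL L' := by
  unfold opL
  rw [List.map_append, List.sum_append]

private theorem opL_scl (n : ℤ) (L : List Tm) :
    (opL (sclL n L) : Module.End (ZMod 5) (Fn5 q q')) = ((n : ℤ) : ZMod 5) • opL L := by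
  induction L with
  | nil => rw [show sclL n [] = [] from rfl, opL_nil, smul_zero]
  | cons t L ih =>
    rw [show sclL n (t :: L) = (n * t.1, t.2) :: sclL n L from rfl, opL_cons, opL_cons, ih, smul_add, smul_smul]
    push_cast
    rfl

end lists

private theorem ndvd {a : ℤ} (h : a % 5 ≠ 0) : ¬ 5 ∣ a := fun h' => h (Int.emod_eq_zero_of_dvd h')

private theorem op5_mul (hm : S5Trm) {r s : ℕ} {t t' : Tm} (h : Gd t) (h' : Gd t') :
    (op5 t.2.1 t.2.2.1 t.2.2.2.1 t.2.2.2.2 * op5 t'.2.1 t'.2.2.1 t'.2.2.2.1 t'.2.2.2.2 :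
      Module.End (ZMod 5) (Fn5 (5 ^ r) (5 ^ s))) =
    op5 (mulT t t').2.1 (mulT t t').2.2.1 (mulT t t').2.2.2.1 (mulT t t').2.2.2.2 := by
  apply LinearMap.ext
  intro F
  exact (hm (ZMod 5) r s F).1 t.2.1 t.2.2.1 t.2.2.2.1 t.2.2.2.2 t'.2.1 t'.2.2.1 t'.2.2.2.1 t'.2.2.2.2
    (ndvd h.1) (ndvd h.2) (ndvd h'.1) (ndvd h'.2)

private theorem opL_mulT (hm : S5Trm) {r s : ℕ} {t : Tm} (h : Gd t) (L' : List Tm) (h' : ∀ t' ∈ L', Gd t') :
    (opL (L'.map fun t' => mulT t t') : Module.End (ZMod 5) (Fn5 (5 ^ r) (5 ^ s))) =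
    (((t.1 : ℤ) : ZMod 5) • op5 t.2.1 t.2.2.1 t.2.2.2.1 t.2.2.2.2) * opL L' := by
  induction L' with
  | nil => rw [List.map_nil, opL_nil, mul_zero]
  | cons a L' ih =>
    rw [List.map_cons, opL_cons, opL_cons, ih (fun t' ht' => h' t' (List.mem_cons_of_mem _ ht')), mul_add,
      smul_mul_smul_comm, op5_mul hm h (h' a List.mem_cons_self)]
    have e : (((mulT t a).1 : ℤ) : ZMod 5) = ((t.1 : ℤ) : ZMod 5) * ((a.1 : ℤ) : ZMod 5) := by
      unfold mulT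
      push_cast
      rfl
    rw [e]

private theorem opL_mul (hm : S5Trm) {r s : ℕ} (L L' : List Tm) (h : ∀ t ∈ L, Gd t) (h' : ∀ t' ∈ L', Gd t') :
    (opL (mulL L L') : Module.End (ZMod 5) (Fn5 (5 ^ r) (5 ^ s))) = opL L * opL L' := by
  induction L with
  | nil => exact (zero_mul _).symm
  | cons a L ih =>
    have e : mulL (a :: L) L' = (L'.map fun t' => mulT a t') ++ mulL L L' := rfl
    rw [e, opL_append, opL_mulT hm (h a List.mem_cons_self) L' h', ih (fun t ht => h t (List.mem_cons_of_mem _ ht)),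
      opL_cons, add_mul]

private theorem gdT2 : ∀ i f : Fin 2, ∀ t ∈ T2L i f, Gd t := by decide

private theorem gdT3 : ∀ i f : Fin 2, ∀ t ∈ T3L i f, Gd t := by decide

private theorem mm_apply (hm : S5Trm) {r s : ℕ} (A B : Fin 2 → Fin 2 → List Tm) (hA : ∀ i f, ∀ t ∈ A i f, Gd t)
    (hB : ∀ i f, ∀ t ∈ B i f, Gd t) (F : Fin 2 → Fn5 (5 ^ r) (5 ^ s)) (i : Fin 2) :
    ∑ g : Fin 2, opL (A i g) (∑ f : Fin 2, opL (B g f) (F f)) = ∑ f : Fin 2, opL (mmL A B i f) (F f) := by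
  simp only [Fin.sum_univ_two, mmL, opL_append, opL_mul hm _ _ (hA _ _) (hB _ _), LinearMap.add_apply,
    Module.End.mul_apply, map_add]
  abel

private theorem op5_one (hm : S5Trm) {r s : ℕ} (F : Fn5 (5 ^ r) (5 ^ s)) : op5 1 0 0 1 F = F :=
  (hm (ZMod 5) r s F).2.1

private theorem id_apply' (hm : S5Trm) {r s : ℕ} (c : ℤ) (F : Fin 2 → Fn5 (5 ^ r) (5 ^ s)) (i : Fin 2) :
    ∑ f : Fin 2, opL (idL c i f) (F f) = ((c : ℤ) : ZMod 5) • F i := by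
  have h1 : ∀ f, opL (idL c f f) (F f) = ((c : ℤ) : ZMod 5) • F f := by
    intro f
    rw [show idL c f f = [(c, 1, 0, 0, 1)] from if_pos rfl, opL_cons, opL_nil, add_zero, LinearMap.smul_apply,
      op5_one hm]
  have h2 : ∀ f g, f ≠ g → opL (idL c f g) (F g) = 0 := by
    intro f g hfg
    rw [show idL c f g = [] from if_neg hfg, opL_nil, LinearMap.zero_apply]
  fin_cases i
  · show ∑ f : Fin 2, opL (idL c 0 f) (F f) = _
    rw [Fin.sum_univ_two, h1 0, h2 0 1 (by decide), add_zero]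
    rfl
  · show ∑ f : Fin 2, opL (idL c 1 f) (F f) = _
    rw [Fin.sum_univ_two, h1 1, h2 1 0 (by decide), zero_add]
    rfl

section

variable {r s : ℕ}

/-- the two functions -/
private noncomputable def P (r s : ℕ) (G : ℤ → ℤ → ZMod 5) (f : Fin 2) : Fn5 (5 ^ r) (5 ^ s) := pf5 G f

private theorem P_add (G H : ℤ → ℤ → ZMod 5) (f : Fin 2) : P r s (G + H) f = P r s G f + P r s H f := by
  funext x y
  simp only [P, pf5, edge5, Pi.add_apply]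
  ring

private theorem P_sub (G H : ℤ → ℤ → ZMod 5) (f : Fin 2) : P r s (G - H) f = P r s G f - P r s H f := by
  funext x y
  simp only [P, pf5, edge5, Pi.sub_apply]
  ring

private theorem P_two (G : ℤ → ℤ → ZMod 5) (f : Fin 2) :
    P r s ((2 : ℤ) • G) f = (2 : ZMod 5) • P r s G f := by
  funext x y
  simp only [P, pf5, edge5, Pi.smul_apply, smul_eq_mul, zsmul_eq_mul]
  push_cast
  ring

private theorem sym2 (hb : S5HkB) {G : ℤ → ℤ → ZMod 5} (hG : SymP 5 r (s + 1) G) :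
    SymP 5 r (s + 1) (Tl 2 (5 ^ r) G) :=
  (hb (ZMod 5) _ r (s + 1) 2 G (by norm_num) (by norm_num) hG).1

private theorem sym3 (hb : S5HkB) {G : ℤ → ℤ → ZMod 5} (hG : SymP 5 r (s + 1) G) :
    SymP 5 r (s + 1) (Tl 3 (5 ^ r) G) :=
  (hb (ZMod 5) _ r (s + 1) 3 G (by norm_num) (by norm_num) hG).1

private theorem P2 (h2 : S5Hk2) {G : ℤ → ℤ → ZMod 5} (hG : SymP 5 r (s + 1) G) (i : Fin 2) :
    P r s (Tl 2 (5 ^ r) G) i = ∑ f : Fin 2, opL (T2L i f) (P r s G f) := h2 r s G hG i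

private theorem P3 (h3 : S5Hk3) {G : ℤ → ℤ → ZMod 5} (hG : SymP 5 r (s + 1) G) (i : Fin 2) :
    P r s (Tl 3 (5 ^ r) G) i = ∑ f : Fin 2, opL (T3L i f) (P r s G f) := h3 r s G hG i

private theorem P22 (hb : S5HkB) (h2 : S5Hk2) (hm : S5Trm) {G : ℤ → ℤ → ZMod 5} (hG : SymP 5 r (s + 1) G)
    (i : Fin 2) : P r s (Tl 2 (5 ^ r) (Tl 2 (5 ^ r) G)) i = ∑ f : Fin 2, opL (mmL T2L T2L i f) (P r s G f) := by
  rw [P2 h2 (sym2 hb hG) i, ← mm_apply hm T2L T2L gdT2 gdT2 (P r s G) i]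
  simp_rw [P2 h2 hG]

private theorem P23 (hb : S5HkB) (h2 : S5Hk2) (h3 : S5Hk3) (hm : S5Trm) {G : ℤ → ℤ → ZMod 5}
    (hG : SymP 5 r (s + 1) G) (i : Fin 2) :
    P r s (Tl 2 (5 ^ r) (Tl 3 (5 ^ r) G)) i = ∑ f : Fin 2, opL (mmL T2L T3L i f) (P r s G f) := by
  rw [P2 h2 (sym3 hb hG) i, ← mm_apply hm T2L T3L gdT2 gdT3 (P r s G) i]
  simp_rw [P3 h3 hG]

private theorem P33 (hb : S5HkB) (h3 : S5Hk3) (hm : S5Trm) {G : ℤ → ℤ → ZMod 5} (hG : SymP 5 r (s + 1) G)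
    (i : Fin 2) : P r s (Tl 3 (5 ^ r) (Tl 3 (5 ^ r) G)) i = ∑ f : Fin 2, opL (mmL T3L T3L i f) (P r s G f) := by
  rw [P3 h3 (sym3 hb hG) i, ← mm_apply hm T3L T3L gdT3 gdT3 (P r s G) i]
  simp_rw [P3 h3 hG]

private theorem symU (hb : S5HkB) {G : ℤ → ℤ → ZMod 5} (hG : SymP 5 r (s + 1) G) :
    SymP 5 r (s + 1) (Uo (5 ^ r) G) := SymP.add (sym2 hb (sym2 hb hG)) hG

private theorem symSub {G H : ℤ → ℤ → ZMod 5} (hG : SymP 5 r (s + 1) G) (hH : SymP 5 r (s + 1) H) :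
    SymP 5 r (s + 1) (G - H) := by
  rw [sub_eq_add_neg]
  exact SymP.add hG (SymP.neg hH)

private theorem symV (hb : S5HkB) {G : ℤ → ℤ → ZMod 5} (hG : SymP 5 r (s + 1) G) :
    SymP 5 r (s + 1) (Vo (5 ^ r) G) :=
  symSub (symSub (sym3 hb (sym3 hb hG)) (SymP.smul _ (sym2 hb (sym3 hb hG)))) (SymP.smul _ hG)

private theorem PU (hb : S5HkB) (h2 : S5Hk2) (hm : S5Trm) {G : ℤ → ℤ → ZMod 5} (hG : SymP 5 r (s + 1) G)
    (i : Fin 2) : P r s (Uo (5 ^ r) G) i = ∑ f : Fin 2, opL (UL i f) (P r s G f) := by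
  have e := id_apply' hm 1 (P r s G) i
  have e1 : P r s (Uo (5 ^ r) G) i = P r s (Tl 2 (5 ^ r) (Tl 2 (5 ^ r) G)) i + P r s G i := P_add _ _ i
  rw [e1, P22 hb h2 hm hG i]
  simp only [UL, opL_append, LinearMap.add_apply, Finset.sum_add_distrib]
  rw [e, Int.cast_one, one_smul]

private theorem PV (hb : S5HkB) (h2 : S5Hk2) (h3 : S5Hk3) (hm : S5Trm) {G : ℤ → ℤ → ZMod 5}
    (hG : SymP 5 r (s + 1) G) (i : Fin 2) :
    P r s (Vo (5 ^ r) G) i = ∑ f : Fin 2, opL (VL i f) (P r s G f) := by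
  have e := id_apply' hm (-2) (P r s G) i
  have e1 : P r s (Vo (5 ^ r) G) i = P r s (Tl 3 (5 ^ r) (Tl 3 (5 ^ r) G)) i -
      (2 : ZMod 5) • P r s (Tl 2 (5 ^ r) (Tl 3 (5 ^ r) G)) i - (2 : ZMod 5) • P r s G i := by
    unfold Vo
    rw [P_sub, P_sub, P_two, P_two]
  rw [e1, P33 hb h3 hm hG i, P23 hb h2 h3 hm hG i]
  simp only [VL, opL_append, opL_scl, LinearMap.add_apply, LinearMap.smul_apply, Finset.sum_add_distrib,
    ← Finset.smul_sum]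
  rw [e]
  push_cast
  rw [neg_smul, neg_smul]
  abel

private theorem PO (hb : S5HkB) (h2 : S5Hk2) (hm : S5Trm) {G : ℤ → ℤ → ZMod 5} (hG : SymP 5 r (s + 1) G) :
    P r s (Oo (5 ^ r) G) 0 = ∑ f : Fin 2, opL (OL f) (P r s G f) := by
  have e := id_apply' hm (-1) (P r s G) 0
  have e1 : P r s (Oo (5 ^ r) G) 0 = P r s (Tl 2 (5 ^ r) (Tl 2 (5 ^ r) G)) 0 -
      P r s (Tl 2 (5 ^ r) G) 0 - P r s G 0 := by
    unfold Oo
    rw [P_sub, P_sub]
  rw [e1, P22 hb h2 hm hG 0, P2 h2 hG 0]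
  simp only [OL, opL_append, opL_scl, LinearMap.add_apply, LinearMap.smul_apply, Finset.sum_add_distrib,
    ← Finset.smul_sum]
  rw [e]
  push_cast
  rw [neg_smul, neg_smul, one_smul, one_smul]
  abel

private theorem lw_pow (hl : S5Low0) {O : Module.End (ZMod 5) (Fn5 (5 ^ r) (5 ^ s))} {k : ℤ} (hO : Lw O k) (n : ℕ) :
    Lw (O ^ n) (k * n) := by
  obtain ⟨hm, -, -, -, -, h1, -⟩ := hl r s
  induction n with
  | zero => simpa using h1
  | succ n ih =>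
    rw [pow_succ]
    have := hm _ _ _ _ ih hO
    rwa [show k * n + k = k * (n + 1 : ℕ) by push_cast; ring] at this

private theorem lw_Qo (hl : S5Low0) : Lw (Qo : Module.End (ZMod 5) (Fn5 (5 ^ r) (5 ^ s))) 2 := by
  obtain ⟨hm, -, hc, -, -, -, hx, hy, -⟩ := hl r s
  have h1 := hc _ 2 _ (hm _ _ _ _ hx hy)
  norm_num at h1
  exact h1

private theorem lw_Lo (hl : S5Low0) : Lw (Lo : Module.End (ZMod 5) (Fn5 (5 ^ r) (5 ^ s))) 6 := by
  obtain ⟨hm, ha, hc, -, -, -, hx, hy, -⟩ := hl r s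
  have x2 := lw_pow hl hx 2
  have y2 := lw_pow hl hy 2
  have a1 := lw_pow hl (ha _ _ _ x2 y2) 2
  have h := hc _ 3 _ (hm _ _ _ _ (hm _ _ _ _ hx hy) a1)
  norm_num at h
  exact h

private theorem lw_Mo (hl : S5Low0) : Lw (Mo : Module.End (ZMod 5) (Fn5 (5 ^ r) (5 ^ s))) 4 := by
  obtain ⟨hm, ha, hc, -, -, -, hx, hy, -⟩ := hl r s
  have x2 := lw_pow hl hx 2
  have y2 := lw_pow hl hy 2
  have xy := hm _ _ _ _ hx hy
  norm_num at x2 y2 xy
  have h := hc _ 4 _ (hm _ _ _ _ (hm _ _ _ _ hx hy) (ha _ _ _ (ha _ _ _ x2 xy) y2))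
  norm_num at h
  exact h

private theorem stepL (hl : S5Low0) {O : Module.End (ZMod 5) (Fn5 (5 ^ r) (5 ^ s))} {k e : ℤ} (hO : Lw O k)
    {F H F' : Fn5 (5 ^ r) (5 ^ s)} (hF : F ∈ Wd5 e) (hH : F - H ∈ Wd5 (e - 1)) (hF' : F' - O F ∈ Wd5 (e - k - 1)) :
    F' ∈ Wd5 (e - k) ∧ F' - O H ∈ Wd5 (e - k - 1) := by
  have hmono := (hl r s).2.2.2.2.1
  have h1 : O F ∈ Wd5 (e - k) := hO e F hF
  have h2 : O (F - H) ∈ Wd5 (e - k - 1) := by
    have := hO (e - 1) _ hH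
    rwa [show e - 1 - k = e - k - 1 by ring] at this
  constructor
  · have h3 := Submodule.add_mem _ (hmono _ _ (by linarith) hF') h1
    rwa [sub_add_cancel] at h3
  · have h3 := Submodule.add_mem _ hF' h2
    rwa [map_sub, sub_add_sub_cancel] at h3

/-- the state -/
private def St (r s : ℕ) (e : ℤ) (G : ℤ → ℤ → ZMod 5) (H : Fn5 (5 ^ r) (5 ^ s)) : Prop :=
  SymP 5 r (s + 1) G ∧ Even e ∧ P r s G 0 ∈ Wd5 e ∧ P r s G 1 ∈ Wd5 (e - 1) ∧ P r s G 0 - H ∈ Wd5 (e - 1)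

private theorem stU (hr : S5Rel) (hb : S5HkB) (h2 : S5Hk2) (hm : S5Trm) (hl : S5Low0) (hd : S5Ld)
    {e : ℤ} {G : ℤ → ℤ → ZMod 5} {H : Fn5 (5 ^ r) (5 ^ s)} (h : St r s e G H) :
    St r s (e - 2) (Uo (5 ^ r) G) (Qo H) := by
  obtain ⟨hG, he, hF0, hF1, hH⟩ := h
  have hR : Rel5 (P r s G) := hr (ZMod 5) _ r s G hG
  obtain ⟨l1, l2, -⟩ := hd r s e (P r s G) he hR hF0 hF1
  rw [← PU hb h2 hm hG 0, show e - 3 = e - 2 - 1 by ring] at l1
  rw [← PU hb h2 hm hG 1, show e - 3 = e - 2 - 1 by ring] at l2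
  obtain ⟨m1, m2⟩ := stepL hl (lw_Qo hl) hF0 hH l1
  exact ⟨symU hb hG, he.sub (by decide), m1, l2, m2⟩

private theorem stV (hr : S5Rel) (hb : S5HkB) (h2 : S5Hk2) (h3 : S5Hk3) (hm : S5Trm) (hl : S5Low0) (hd : S5Ld)
    {e : ℤ} {G : ℤ → ℤ → ZMod 5} {H : Fn5 (5 ^ r) (5 ^ s)} (h : St r s e G H) :
    St r s (e - 6) (Vo (5 ^ r) G) (Lo H) := by
  obtain ⟨hG, he, hF0, hF1, hH⟩ := h
  have hR : Rel5 (P r s G) := hr (ZMod 5) _ r s G hG
  obtain ⟨-, -, l1, l2⟩ := hd r s e (P r s G) he hR hF0 hF1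
  rw [← PV hb h2 h3 hm hG 0, show e - 7 = e - 6 - 1 by ring] at l1
  rw [← PV hb h2 h3 hm hG 1, show e - 7 = e - 6 - 1 by ring] at l2
  obtain ⟨m1, m2⟩ := stepL hl (lw_Lo hl) hF0 hH l1
  exact ⟨symV hb hG, he.sub (by decide), m1, l2, m2⟩

private theorem itU (hr : S5Rel) (hb : S5HkB) (h2 : S5Hk2) (hm : S5Trm) (hl : S5Low0) (hd : S5Ld)
    {e : ℤ} {G : ℤ → ℤ → ZMod 5} {H : Fn5 (5 ^ r) (5 ^ s)} (h : St r s e G H) (i : ℕ) :
    St r s (e - 2 * i) ((Uo (5 ^ r))^[i] G) ((Qo ^ i : Module.End (ZMod 5) (Fn5 (5 ^ r) (5 ^ s))) H) := by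
  induction i with
  | zero => simpa using h
  | succ i ih =>
    have h4 := stU hr hb h2 hm hl hd ih
    have hp : (Qo ^ (i + 1) : Module.End (ZMod 5) (Fn5 (5 ^ r) (5 ^ s))) = Qo * Qo ^ i := pow_succ' _ _
    have e2 : e - 2 * ((i + 1 : ℕ) : ℤ) = e - 2 * i - 2 := by push_cast; ring
    rw [Function.iterate_succ_apply', hp, e2]
    exact h4

private theorem itV (hr : S5Rel) (hb : S5HkB) (h2 : S5Hk2) (h3 : S5Hk3) (hm : S5Trm) (hl : S5Low0) (hd : S5Ld)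
    {e : ℤ} {G : ℤ → ℤ → ZMod 5} {H : Fn5 (5 ^ r) (5 ^ s)} (h : St r s e G H) (j : ℕ) :
    St r s (e - 6 * j) ((Vo (5 ^ r))^[j] G) ((Lo ^ j : Module.End (ZMod 5) (Fn5 (5 ^ r) (5 ^ s))) H) := by
  induction j with
  | zero => simpa using h
  | succ j ih =>
    have h4 := stV hr hb h2 h3 hm hl hd ih
    have hp : (Lo ^ (j + 1) : Module.End (ZMod 5) (Fn5 (5 ^ r) (5 ^ s))) = Lo * Lo ^ j := pow_succ' _ _
    have e2 : e - 6 * ((j + 1 : ℕ) : ℤ) = e - 6 * j - 6 := by push_cast; ring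
    rw [Function.iterate_succ_apply', hp, e2]
    exact h4

private theorem P_zero (G : ℤ → ℤ → ZMod 5) : P r s G 0 0 0 = G 1 0 - G 0 1 := by
  have hY : rY5 0 (0 : ZMod (5 ^ r)) (0 : ZMod (5 ^ s)) = 0 := by
    unfold rY5
    simp
  unfold P pf5 edge5
  rw [hY]
  simp [e5]

end

/-- **ITR.** -/
theorem hItr (hr : S5Rel) (hb : S5HkB) (h2 : S5Hk2) (h3 : S5Hk3) (hm : S5Trm) (hl : S5Low0) (hd : S5Ld)
    (ho : S5Om) (_ha : S5PlA) : S5Itr := by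
  intro r s G d hG hde hF0 hF1 i j
  have hmono := (hl r s).2.2.2.2.1
  have hz : ∀ F : Fn5 (5 ^ r) (5 ^ s), F ∈ Wd5 (-1) → F = 0 :=
    (hl r s).2.2.2.2.2.2.2.2.2.2.2.2.2
  have h0 : St r s (d : ℤ) G (P r s G 0) := by
    refine ⟨hG, by exact_mod_cast hde, hF0, hF1, ?_⟩
    rw [sub_self]
    exact Submodule.zero_mem _
  have hK := itU hr hb h2 hm hl hd (itV hr hb h2 h3 hm hl hd h0 j) i
  set K : ℤ → ℤ → ZMod 5 := (Uo (5 ^ r))^[i] ((Vo (5 ^ r))^[j] G) with hKd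
  set H : Fn5 (5 ^ r) (5 ^ s) := (Qo ^ i : Module.End (ZMod 5) (Fn5 (5 ^ r) (5 ^ s)))
    ((Lo ^ j : Module.End (ZMod 5) (Fn5 (5 ^ r) (5 ^ s))) (P r s G 0)) with hHd
  obtain ⟨kG, ke, k0, k1, kH⟩ := hK
  have ev0 : ev5 (5 ^ r) G 0 i j = P r s K 0 0 0 := by
    rw [P_zero]
    rfl
  have ev1 : ev5 (5 ^ r) G 1 i j = P r s (Oo (5 ^ r) K) 0 0 0 := by
    rw [P_zero]
    rfl
  have kR : Rel5 (P r s K) := hr (ZMod 5) _ r s K kG
  have evM : (d : ℤ) - 6 * j - 2 * i ≤ 4 → ev5 (5 ^ r) G 1 i j = Mo (P r s K 0) 0 0 := by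
    intro h4
    rw [ev1, PO hb h2 hm kG]
    exact ho r s (P r s K) kR (hmono _ _ h4 k0) (hmono _ _ (by linarith) k1)
  refine ⟨fun hlt => ?_, fun heq => ?_, fun hlt => ?_, fun heq => ?_⟩
  · have h1 := hz _ (hmono _ (-1) (by
      have : (d : ℤ) < 2 * i + 6 * j := by exact_mod_cast hlt
      linarith) k0)
    rw [ev0, h1]
    rfl
  · have h1 := hz _ (hmono _ (-1) (by
      have : (2 * i + 6 * j : ℤ) = d := by exact_mod_cast heq
      linarith) kH)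
    rw [ev0, sub_eq_zero.1 h1]
    rfl
  · have hlt' : (d : ℤ) < 2 * i + 6 * j + 4 := by exact_mod_cast hlt
    have h1 := hz _ (hmono _ (-1) (by linarith) (lw_Mo hl _ _ k0))
    rw [evM (by linarith), h1]
    rfl
  · have heq' : (2 * i + 6 * j + 4 : ℤ) = d := by exact_mod_cast heq
    have h1 := hz _ (hmono _ (-1) (by linarith) (lw_Mo hl _ _ kH))
    rw [map_sub] at h1
    rw [evM (by linarith), sub_eq_zero.1 h1]
    rfl

end Pool.Agent.Helper24.W5
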